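import Pool.Agent.K1H32.WU.Stm

/-! # Independent digit events: the pieces of the interface `K1H32.WU.Stm` -/

set_option autoImplicit false

open MeasureTheory Finset Pool.Agent.H66R3.PG Pool.Agent.BAPp Pool.Agent.K1H32.WU

namespace Pool.Agent.K1H76.WU

/-! ### Averages -/

theorem E_add {N : ℕ} {F G : (ℕ → Bool) → ℝ} (hF : Dep N F) (hG : Dep N G) :
    E (fun x => F x + G x) = E F + E G := integral_add hF.integrable hG.integrable

theorem E_smul (c : ℝ) (F : (ℕ → Bool) → ℝ) : E (fun x => c * F x) = c * E F :=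
  integral_const_mul c _

theorem E_const (c : ℝ) : E (fun _ => c) = c := by
  unfold E
  simp

theorem E_mono {N : ℕ} {F G : (ℕ → Bool) → ℝ} (hF : Dep N F) (hG : Dep N G) (h : ∀ x, F x ≤ G x) :
    E F ≤ E G := integral_mono hF.integrable hG.integrable (fun x => h (dig x))

theorem E_sum {N : ℕ} {ι : Type*} (S : Finset ι) (F : ι → (ℕ → Bool) → ℝ) (hF : ∀ i ∈ S, Dep N (F i)) :
    E (fun x => ∑ i ∈ S, F i x) = ∑ i ∈ S, E (F i) :=
  integral_finsetSum S (fun i hi => (hF i hi).integrable)

theorem dep_const (N : ℕ) (c : ℝ) : Dep N (fun _ => c) := fun _ _ _ => rfl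

theorem dep_mul {N : ℕ} {F G : (ℕ → Bool) → ℝ} (hF : Dep N F) (hG : Dep N G) :
    Dep N (fun x => F x * G x) := fun x y h => by
  show F x * G x = F y * G y
  rw [hF x y h, hG x y h]

theorem dep_add {N : ℕ} {F G : (ℕ → Bool) → ℝ} (hF : Dep N F) (hG : Dep N G) :
    Dep N (fun x => F x + G x) := fun x y h => by
  show F x + G x = F y + G y
  rw [hF x y h, hG x y h]

theorem dep_comp {N : ℕ} {F : (ℕ → Bool) → ℝ} (hF : Dep N F) (φ : ℝ → ℝ) :
    Dep N (fun x => φ (F x)) := fun x y h => by
  show φ (F x) = φ (F y)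
  rw [hF x y h]

theorem dep_sum {N : ℕ} {ι : Type*} (S : Finset ι) (F : ι → (ℕ → Bool) → ℝ) (hF : ∀ i ∈ S, Dep N (F i)) :
    Dep N (fun x => ∑ i ∈ S, F i x) := fun x y h => by
  show ∑ i ∈ S, F i x = ∑ i ∈ S, F i y
  exact Finset.sum_congr rfl fun i hi => hF i hi x y h

/-! ### One digit -/

/-- the set `{k}` -/
def one (k : ℕ) : ℕ → Bool := fun i => decide (i = k)

theorem flip_one_self (k : ℕ) (x : ℕ → Bool) : flipS (one k) x k = !(x k) := by
  simp [flipS, one]

theorem flip_one_ne {k i : ℕ} (h : i ≠ k) (x : ℕ → Bool) : flipS (one k) x i = x i := by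
  simp [flipS, one, h]

/-- the indicator of `true` -/
def ib (b : Bool) : ℝ := if b = true then 1 else 0

theorem E_ib {N k : ℕ} {G : (ℕ → Bool) → ℝ} (hG : Dep N G) (hk : k < N)
    (hinv : ∀ x, G (flipS (one k) x) = G x) : E (fun x => G x * ib (x k)) = 1 / 2 * E G := by
  have hd : Dep N (fun x => G x * ib (x k)) := by
    refine dep_mul hG ?_
    intro x y h
    show ib (x k) = ib (y k)
    rw [h k hk]
  have hd2 : Dep N (fun x => G x * ib (!(x k))) := by
    refine dep_mul hG ?_
    intro x y h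
    show ib (!(x k)) = ib (!(y k))
    rw [h k hk]
  have h1 := E_flip hd (one k)
  simp only [hinv, flip_one_self] at h1
  have h2 := E_add hd hd2
  have h3 : (fun x : ℕ → Bool => G x * ib (x k) + G x * ib (!(x k))) = G := by
    funext x
    cases x k <;> simp [ib]
  rw [h3] at h2
  linarith

theorem E_sgn {N k : ℕ} {G : (ℕ → Bool) → ℝ} (hG : Dep N G) (hk : k < N)
    (hinv : ∀ x, G (flipS (one k) x) = G x) : E (fun x => G x * sgn (x k)) = 0 := by
  have hd : Dep N (fun x => G x * sgn (x k)) := by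
    refine dep_mul hG ?_
    intro x y h
    show sgn (x k) = sgn (y k)
    rw [h k hk]
  have h1 := E_flip hd (one k)
  simp only [hinv, flip_one_self] at h1
  have h3 : (fun x : ℕ → Bool => G x * sgn (!(x k))) = fun x => (-1) * (G x * sgn (x k)) := by
    funext x
    cases x k <;> simp [sgn]
  rw [h3, E_smul] at h1
  linarith

/-! ### The events -/

/-- the sign as a function of the digits -/
noncomputable def rx (n : ℕ) (x : ℕ → Bool) : ℝ := sgn (x (Nat.pair n 0))

/-- the event as a function of the digits -/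
noncomputable def ev (m n : ℕ) (x : ℕ → Bool) : ℝ :=
  if ∀ l < m, x (Nat.pair n (l + 1)) = true then 1 else 0

theorem rad_eq (n : ℕ) (t : ℝ) : rad n t = rx n (dig t) := rfl

theorem evt_eq (m n : ℕ) (t : ℝ) : evt m n t = ev m n (dig t) := rfl

theorem ev_zero (n : ℕ) (x : ℕ → Bool) : ev 0 n x = 1 := by simp [ev]

theorem ev_succ (m n : ℕ) (x : ℕ → Bool) : ev (m + 1) n x = ev m n x * ib (x (Nat.pair n (m + 1))) := by
  unfold ev ib
  have h : (∀ l < m + 1, x (Nat.pair n (l + 1)) = true) ↔
      (∀ l < m, x (Nat.pair n (l + 1)) = true) ∧ x (Nat.pair n (m + 1)) = true := by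
    constructor
    · exact fun h => ⟨fun l hl => h l (by omega), h m (by omega)⟩
    · rintro ⟨h1, h2⟩ l hl
      rcases Nat.lt_succ_iff_lt_or_eq.mp hl with h3 | h3
      · exact h1 l h3
      · rw [h3]; exact h2
  by_cases h1 : ∀ l < m, x (Nat.pair n (l + 1)) = true
  · by_cases h2 : x (Nat.pair n (m + 1)) = true
    · rw [if_pos (h.2 ⟨h1, h2⟩), if_pos h1, if_pos h2, mul_one]
    · rw [if_neg (fun h' => h2 (h.1 h').2), if_neg h2, mul_zero]
  · rw [if_neg (fun h' => h1 (h.1 h').1), if_neg h1, zero_mul]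

theorem ev_sq (m n : ℕ) (x : ℕ → Bool) : ev m n x ^ 2 = ev m n x := by
  unfold ev
  split_ifs <;> simp

theorem ev_nonneg (m n : ℕ) (x : ℕ → Bool) : 0 ≤ ev m n x := by
  unfold ev
  split_ifs <;> simp

theorem ev_le (m n : ℕ) (x : ℕ → Bool) : ev m n x ≤ 1 := by
  unfold ev
  split_ifs <;> simp

theorem rx_sq (n : ℕ) (x : ℕ → Bool) : rx n x ^ 2 = 1 := by
  rw [pow_two]
  exact Khin.sgn_sq _

theorem ev_inv {m n k : ℕ} (hk : ∀ l < m, Nat.pair n (l + 1) ≠ k) (x : ℕ → Bool) :
    ev m n (flipS (one k) x) = ev m n x := by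
  have h : ∀ l < m, flipS (one k) x (Nat.pair n (l + 1)) = x (Nat.pair n (l + 1)) :=
    fun l hl => flip_one_ne (hk l hl) x
  unfold ev
  congr 1
  apply propext
  constructor
  · intro h1 l hl
    rw [← h l hl]; exact h1 l hl
  · intro h1 l hl
    rw [h l hl]; exact h1 l hl

theorem rx_inv {n k : ℕ} (hk : Nat.pair n 0 ≠ k) (x : ℕ → Bool) : rx n (flipS (one k) x) = rx n x := by
  unfold rx
  rw [flip_one_ne hk]

theorem ev_dep {m n N : ℕ} (h : ∀ l < m, Nat.pair n (l + 1) < N) : Dep N (ev m n) := by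
  intro x y hxy
  unfold ev
  congr 1
  apply propext
  constructor
  · intro h1 l hl
    rw [← hxy _ (h l hl)]; exact h1 l hl
  · intro h1 l hl
    rw [hxy _ (h l hl)]; exact h1 l hl

theorem rx_dep {n N : ℕ} (h : Nat.pair n 0 < N) : Dep N (rx n) := by
  intro x y hxy
  unfold rx
  rw [hxy _ h]

/-- independence of the event from functions not using its row -/
theorem E_ev {N : ℕ} {G : (ℕ → Bool) → ℝ} (hG : Dep N G) (n : ℕ) (m : ℕ)
    (hN : ∀ l < m, Nat.pair n (l + 1) < N)
    (hinv : ∀ l < m, ∀ x, G (flipS (one (Nat.pair n (l + 1))) x) = G x) :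
    E (fun x => G x * ev m n x) = (1 / 2) ^ m * E G := by
  induction m with
  | zero =>
    simp only [ev_zero, mul_one, pow_zero, one_mul]
  | succ m ih =>
    have h1 := ih (fun l hl => hN l (by omega)) (fun l hl => hinv l (by omega))
    have hd : Dep N (fun x => G x * ev m n x) := dep_mul hG (ev_dep fun l hl => hN l (by omega))
    have h2 := E_ib hd (hN m (by omega)) (fun x => by
      rw [hinv m (by omega), ev_inv]
      intro l hl h
      have := (Nat.pair_eq_pair.1 h).2
      omega)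
    have h3 : (fun x => G x * ev (m + 1) n x) = fun x => G x * ev m n x * ib (x (Nat.pair n (m + 1))) := by
      funext x
      rw [ev_succ, mul_assoc]
    rw [h3, h2, h1, pow_succ]
    ring

/-- a bound for the used digits -/
def bd (m : ℕ) (F : Finset ℕ) : ℕ := (F ×ˢ Finset.range (m + 1)).sup (fun p => Nat.pair p.1 p.2) + 1

theorem lt_bd {m : ℕ} {F : Finset ℕ} {i j : ℕ} (hi : i ∈ F) (hj : j ≤ m) : Nat.pair i j < bd m F := by
  unfold bd
  have : (i, j) ∈ F ×ˢ Finset.range (m + 1) := by
    rw [Finset.mem_product, Finset.mem_range]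
    exact ⟨hi, by omega⟩
  exact Nat.lt_succ_of_le (Finset.le_sup (f := fun p : ℕ × ℕ => Nat.pair p.1 p.2) this)

theorem t_meas : S_meas := by
  intro m n
  have h := E_ev (N := bd m {n}) (G := fun _ => 1) (dep_const _ _) n m
    (fun l hl => lt_bd (Finset.mem_singleton_self n) (by omega)) (fun _ _ _ => rfl)
  rw [E_const, mul_one] at h
  simp only [one_mul] at h
  exact h

theorem E_pair {m i j : ℕ} (hij : i ≠ j) : E (fun x => ev m i x * ev m j x) = (1 / 2) ^ m * (1 / 2) ^ m := by
  have hi : ∀ l < m, Nat.pair i (l + 1) < bd m {i, j} := fun l hl => lt_bd (by simp) (by omega)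
  have hj : ∀ l < m, Nat.pair j (l + 1) < bd m {i, j} := fun l hl => lt_bd (by simp) (by omega)
  rw [E_ev (N := bd m {i, j}) (ev_dep hi) j m hj]
  · congr 1
    exact t_meas m i
  · intro l _ x
    apply ev_inv
    intro l' _ h
    exact hij (Nat.pair_eq_pair.1 h).1

theorem t_orth : S_orth := by
  intro m F a
  have hdep : ∀ i ∈ F, Dep (bd m F) (fun x => rx i x * ev m i x) := fun i hi =>
    dep_mul (rx_dep (lt_bd hi (Nat.zero_le _))) (ev_dep fun l hl => lt_bd hi (by omega))
  have h0 : ∫ t, (∑ i ∈ F, a i * (rad i t * evt m i t)) ^ 2 ∂mu =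
      E (fun x => ∑ i ∈ F, ∑ j ∈ F, a i * a j * ((rx i x * ev m i x) * (rx j x * ev m j x))) := by
    unfold E
    congr 1
    funext t
    rw [pow_two, Finset.sum_mul_sum]
    refine Finset.sum_congr rfl fun i _ => Finset.sum_congr rfl fun j _ => ?_
    rw [rad_eq, evt_eq, rad_eq, evt_eq]
    ring
  have hdd : ∀ i ∈ F, ∀ j ∈ F, Dep (bd m F) (fun x => (rx i x * ev m i x) * (rx j x * ev m j x)) :=
    fun i hi j hj => dep_mul (hdep i hi) (hdep j hj)
  rw [h0, E_sum (N := bd m F) F _ (fun i hi => dep_sum F _ fun j hj => dep_mul (dep_const _ _) (hdd i hi j hj))]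
  have h1 : ∀ i ∈ F, E (fun x => ∑ j ∈ F, a i * a j * ((rx i x * ev m i x) * (rx j x * ev m j x))) =
      (1 / 2) ^ m * a i ^ 2 := by
    intro i hi
    rw [E_sum (N := bd m F) F _ (fun j hj => dep_mul (dep_const _ _) (hdd i hi j hj)),
      Finset.sum_eq_single_of_mem i hi]
    · rw [E_smul]
      have h2 : (fun x => (rx i x * ev m i x) * (rx i x * ev m i x)) = ev m i := by
        funext x
        have e1 := rx_sq i x
        have e2 := ev_sq m i x
        calc (rx i x * ev m i x) * (rx i x * ev m i x) = rx i x ^ 2 * ev m i x ^ 2 := by ring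
          _ = ev m i x := by rw [e1, e2, one_mul]
      rw [h2]
      have h3 : E (ev m i) = (1 / 2) ^ m := t_meas m i
      rw [h3]
      ring
    · intro j hj hji
      rw [E_smul]
      have h2 : (fun x => (rx i x * ev m i x) * (rx j x * ev m j x)) =
          fun x => (ev m i x * (rx j x * ev m j x)) * sgn (x (Nat.pair i 0)) := by
        funext x
        unfold rx
        ring
      rw [h2, E_sgn (N := bd m F)]
      · ring
      · exact dep_mul (ev_dep fun l hl => lt_bd hi (by omega)) (hdep j hj)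
      · exact lt_bd hi (Nat.zero_le _)
      · intro x
        rw [ev_inv, ev_inv, rx_inv]
        · intro h
          exact hji (Nat.pair_eq_pair.1 h).1
        · intro l _ h
          exact hji (Nat.pair_eq_pair.1 h).1
        · intro l _ h
          have := (Nat.pair_eq_pair.1 h).2
          omega
  rw [Finset.sum_congr rfl h1, Finset.mul_sum]

end Pool.Agent.K1H76.WU
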