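import Pool.Agent.K1H76.WU.W1

/-! # Independent digit events: Khintchine and the number of events -/

set_option autoImplicit false

open MeasureTheory Finset Pool.Agent.H66R3.PG Pool.Agent.BAPp Pool.Agent.K1H32.WU

namespace Pool.Agent.K1H76.WU

/-- the digits `(i,0)` with `i ∈ F` and `σ i = false` -/
noncomputable def fs (F : Finset ℕ) (σ : F → Bool) : ℕ → Bool := fun k =>
  if h : (Nat.unpair k).2 = 0 ∧ (Nat.unpair k).1 ∈ F then !(σ ⟨(Nat.unpair k).1, h.2⟩) else false

theorem fs_zero {F : Finset ℕ} (σ : F → Bool) (i : F) : fs F σ (Nat.pair i 0) = !(σ i) := by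
  unfold fs
  simp

theorem fs_succ {F : Finset ℕ} (σ : F → Bool) (i l : ℕ) : fs F σ (Nat.pair i (l + 1)) = false := by
  unfold fs
  simp

theorem rx_flip {F : Finset ℕ} (σ : F → Bool) (i : F) (x : ℕ → Bool) :
    rx i (flipS (fs F σ) x) = sgn (σ i) * rx i x := by
  unfold rx flipS
  rw [fs_zero]
  cases σ i <;> cases x (Nat.pair i 0) <;> simp [sgn]

theorem ev_flip {F : Finset ℕ} (σ : F → Bool) (m i : ℕ) (x : ℕ → Bool) :
    ev m i (flipS (fs F σ) x) = ev m i x := by
  have h : ∀ l, flipS (fs F σ) x (Nat.pair i (l + 1)) = x (Nat.pair i (l + 1)) := by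
    intro l
    unfold flipS
    rw [fs_succ, Bool.false_xor]
  unfold ev
  simp only [h]

theorem t_kh : S_kh := by
  intro s hs m F a
  have hdep : ∀ i ∈ F, Dep (bd m F) (fun x => a i * (rx i x * ev m i x)) := fun i hi =>
    dep_mul (dep_const _ _) (dep_mul (rx_dep (lt_bd hi (Nat.zero_le _))) (ev_dep fun l hl => lt_bd hi (by omega)))
  obtain ⟨H, hH⟩ : ∃ H : (ℕ → Bool) → ℝ, H = fun x => |∑ i ∈ F, a i * (rx i x * ev m i x)| ^ s := ⟨_, rfl⟩
  have hHd : Dep (bd m F) H := by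
    rw [hH]
    exact dep_comp (dep_sum F _ hdep) (fun y => |y| ^ s)
  have hHf : ∀ σ : F → Bool, Dep (bd m F) (fun x => H (flipS (fs F σ) x)) := by
    intro σ x y hxy
    refine hHd _ _ fun i hi => ?_
    unfold flipS
    rw [hxy i hi]
  obtain ⟨R, hR⟩ : ∃ R : (ℕ → Bool) → ℝ, R = fun x => (∑ i ∈ F, a i ^ 2 * ev m i x) ^ (s / 2) := ⟨_, rfl⟩
  have hRd : Dep (bd m F) R := by
    rw [hR]
    exact dep_comp (dep_sum F _ fun i hi => dep_mul (dep_const _ _) (ev_dep fun l hl => lt_bd hi (by omega)))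
      (fun y => y ^ (s / 2))
  have e1 : ∫ t, |∑ i ∈ F, a i * (rad i t * evt m i t)| ^ s ∂mu = E H := by rw [hH]; rfl
  have e2 : ∫ t, (∑ i ∈ F, a i ^ 2 * evt m i t) ^ (s / 2) ∂mu = E R := by rw [hR]; rfl
  rw [e1, e2]
  have h1 : ∀ x, ∑ σ : F → Bool, H (flipS (fs F σ) x) ≤ 2 ^ (Fintype.card F) * (4 * s ^ s * R x) := by
    intro x
    have h2 := Khin.khinchine (fun i : F => a i * (rx i x * ev m i x)) s hs
    have h3 : ∑ i : F, (a i * (rx i x * ev m i x)) ^ 2 = ∑ i ∈ F, a i ^ 2 * ev m i x := by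
      rw [← Finset.sum_coe_sort F]
      refine Finset.sum_congr rfl fun i _ => ?_
      rw [mul_pow, mul_pow, rx_sq, ev_sq, one_mul]
    rw [h3] at h2
    have h4 : ∀ σ : F → Bool, H (flipS (fs F σ) x) = |∑ i : F, sgn (σ i) * (a i * (rx i x * ev m i x))| ^ s := by
      intro σ
      rw [hH]
      show |∑ i ∈ F, a i * (rx i (flipS (fs F σ) x) * ev m i (flipS (fs F σ) x))| ^ s = _
      rw [← Finset.sum_coe_sort F]
      congr 2
      refine Finset.sum_congr rfl fun i _ => ?_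
      rw [rx_flip, ev_flip]
      ring
    rw [Finset.sum_congr rfl fun σ _ => h4 σ, hR]
    exact h2
  have h2 := E_mono (N := bd m F) (dep_sum Finset.univ _ fun σ _ => hHf σ)
    (dep_mul (dep_const _ _) (dep_mul (dep_const _ _) hRd)) h1
  rw [E_sum (N := bd m F) Finset.univ _ (fun σ _ => hHf σ), E_smul, E_smul] at h2
  have h3 : ∀ σ ∈ (Finset.univ : Finset (F → Bool)), E (fun x => H (flipS (fs F σ) x)) = E H :=
    fun σ _ => E_flip hHd _
  rw [Finset.sum_congr rfl h3, Finset.sum_const, Finset.card_univ, Fintype.card_fun, Fintype.card_bool,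
    nsmul_eq_mul, Nat.cast_pow, Nat.cast_ofNat] at h2
  exact le_of_mul_le_mul_left h2 (by positivity)

/-- the power function on `[0,1]` -/
theorem pow_le {q x y : ℝ} (hq : 1 ≤ q) (hx : 0 ≤ x) (hx1 : x ≤ 1) (hy : 0 ≤ y) :
    x ^ q ≤ y ^ q + q * |x - y| := by
  rcases le_total x y with h | h
  · have h1 : x ^ q ≤ y ^ q := Real.rpow_le_rpow hx h (by linarith)
    have h2 : 0 ≤ q * |x - y| := mul_nonneg (by linarith) (abs_nonneg _)
    linarith
  · rcases hx.eq_or_lt with h0 | h0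
    · have : y = 0 := le_antisymm (by rw [← h0] at h; exact h) hy
      rw [← h0, this]
      simp
    · -- Bernoulli: (y/x)^q ≥ 1 + q (y/x - 1)
      have h1 := one_add_mul_self_le_rpow_one_add (s := y / x - 1) (by
        have : 0 ≤ y / x := div_nonneg hy h0.le
        linarith) hq
      rw [add_sub_cancel, Real.div_rpow hy h0.le] at h1
      have hxq : 0 < x ^ q := Real.rpow_pos_of_pos h0 _
      have h2 : x ^ q * (1 + q * (y / x - 1)) ≤ y ^ q := by
        have := mul_le_mul_of_nonneg_left h1 hxq.le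
        rwa [mul_div_cancel₀ _ hxq.ne'] at this
      have h3 : x ^ q ≤ x := by
        have := Real.rpow_le_rpow_of_exponent_ge h0 hx1 hq
        rwa [Real.rpow_one] at this
      have h4 : x ^ q * (q * (1 - y / x)) ≤ q * (x - y) := by
        have h5 : 0 ≤ q * (1 - y / x) := mul_nonneg (by linarith) (by
          rw [sub_nonneg, div_le_one h0]; exact h)
        have h6 := mul_le_mul_of_nonneg_right h3 h5
        have h7 : x * (q * (1 - y / x)) = q * (x - y) := by
          field_simp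
        linarith
      rw [abs_of_nonneg (by linarith)]
      nlinarith

theorem t_count : S_count := by
  intro q hq m F hF
  obtain ⟨N, hN⟩ : ∃ N : ℝ, N = (F.card : ℝ) := ⟨_, rfl⟩
  have hN1 : 1 ≤ N := by
    rw [hN]
    exact_mod_cast Finset.card_pos.2 hF
  have hN0 : 0 < N := by linarith
  obtain ⟨η, hη⟩ : ∃ η : ℝ, η = (1 / 2 : ℝ) ^ m := ⟨_, rfl⟩
  have hη0 : 0 ≤ η := by rw [hη]; positivity
  have hη1 : η ≤ 1 := by rw [hη]; exact pow_le_one₀ (by norm_num) (by norm_num)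
  obtain ⟨S, hS⟩ : ∃ S : (ℕ → Bool) → ℝ, S = fun x => ∑ i ∈ F, ev m i x := ⟨_, rfl⟩
  have hevd : ∀ i ∈ F, Dep (bd m F) (ev m i) := fun i hi => ev_dep fun l hl => lt_bd hi (by omega)
  have hSd : Dep (bd m F) S := by rw [hS]; exact dep_sum F _ hevd
  have hS0 : ∀ x, 0 ≤ S x := fun x => by rw [hS]; exact Finset.sum_nonneg fun i _ => ev_nonneg m i x
  have hSN : ∀ x, S x ≤ N := fun x => by
    rw [hS, hN]
    calc ∑ i ∈ F, ev m i x ≤ ∑ i ∈ F, (1 : ℝ) := Finset.sum_le_sum fun i _ => ev_le m i x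
      _ = (F.card : ℝ) := by simp
  -- moments
  have m1 : E S = N * η := by
    rw [hS, E_sum (N := bd m F) F _ hevd]
    have : ∀ i ∈ F, E (ev m i) = η := fun i _ => by rw [hη]; exact t_meas m i
    rw [Finset.sum_congr rfl this, Finset.sum_const, nsmul_eq_mul, hN]
  have m2 : E (fun x => S x * S x) ≤ N * η + N ^ 2 * η ^ 2 := by
    have h1 : (fun x => S x * S x) = fun x => ∑ i ∈ F, ∑ j ∈ F, ev m i x * ev m j x := by
      funext x
      rw [hS]
      exact Finset.sum_mul_sum _ _ _ _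
    rw [h1, E_sum (N := bd m F) F _ (fun i hi => dep_sum F _ fun j hj => dep_mul (hevd i hi) (hevd j hj))]
    have h2 : ∀ i ∈ F, E (fun x => ∑ j ∈ F, ev m i x * ev m j x) ≤ η + N * η ^ 2 := by
      intro i hi
      rw [E_sum (N := bd m F) F _ (fun j hj => dep_mul (hevd i hi) (hevd j hj)), ← Finset.add_sum_erase _ _ hi]
      have h3 : E (fun x => ev m i x * ev m i x) = η := by
        have h4 : (fun x => ev m i x * ev m i x) = ev m i := by
          funext x
          rw [← pow_two]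
          exact ev_sq m i x
        rw [h4, hη]
        exact t_meas m i
      rw [h3]
      have h4 : ∀ j ∈ F.erase i, E (fun x => ev m i x * ev m j x) = η ^ 2 := by
        intro j hj
        rw [E_pair (Finset.ne_of_mem_erase hj).symm, hη, pow_two]
      rw [Finset.sum_congr rfl h4, Finset.sum_const, nsmul_eq_mul]
      have h5 : ((F.erase i).card : ℝ) ≤ N := by
        rw [hN]
        exact_mod_cast Finset.card_le_card (Finset.erase_subset i F)
      have := mul_le_mul_of_nonneg_right h5 (sq_nonneg η)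
      linarith
    calc ∑ i ∈ F, E (fun x => ∑ j ∈ F, ev m i x * ev m j x) ≤ ∑ i ∈ F, (η + N * η ^ 2) := Finset.sum_le_sum h2
      _ = N * η + N ^ 2 * η ^ 2 := by
        rw [Finset.sum_const, nsmul_eq_mul, ← hN]
        ring
  -- pointwise
  obtain ⟨r, hr⟩ : ∃ r : ℝ, r = Real.sqrt N := ⟨_, rfl⟩
  have hr0 : 0 < r := by rw [hr]; exact Real.sqrt_pos.2 hN0
  have hrr : r ^ 2 = N := by rw [hr]; exact Real.sq_sqrt hN0.le
  have hpt : ∀ x, S x ^ q ≤ N ^ q * (η ^ q + q / 2 * (1 / r)) +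
      N ^ q * (q / 2 * r) * ((1 / N ^ 2) * (S x * S x) + ((-2 * η / N) * S x + η ^ 2)) := by
    intro x
    have h1 : S x = N * (S x / N) := by field_simp
    have h2 : S x ^ q = N ^ q * (S x / N) ^ q := by
      rw [← Real.mul_rpow hN0.le (div_nonneg (hS0 x) hN0.le), ← h1]
    have h3 := pow_le hq (div_nonneg (hS0 x) hN0.le) ((div_le_one hN0).2 (hSN x)) hη0
    have h4 : |S x / N - η| ≤ (1 / r + r * (S x / N - η) ^ 2) / 2 := by
      have h5 : 0 ≤ (1 / r) * (1 - r * |S x / N - η|) ^ 2 := by positivity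
      have h6 : (1 / r) * (1 - r * |S x / N - η|) ^ 2 =
          1 / r - 2 * |S x / N - η| + r * |S x / N - η| ^ 2 := by
        field_simp
        ring
      rw [h6, sq_abs] at h5
      linarith
    have h5 : (S x / N - η) ^ 2 = (1 / N ^ 2) * (S x * S x) + ((-2 * η / N) * S x + η ^ 2) := by
      field_simp
      ring
    rw [h2, ← h5]
    have h6 : (0 : ℝ) ≤ N ^ q := Real.rpow_nonneg hN0.le _
    have h7 : (S x / N) ^ q ≤ η ^ q + q * ((1 / r + r * (S x / N - η) ^ 2) / 2) :=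
      h3.trans (by
        have := mul_le_mul_of_nonneg_left h4 (show (0 : ℝ) ≤ q by linarith)
        linarith)
    calc N ^ q * (S x / N) ^ q ≤ N ^ q * (η ^ q + q * ((1 / r + r * (S x / N - η) ^ 2) / 2)) :=
          mul_le_mul_of_nonneg_left h7 h6
      _ = N ^ q * (η ^ q + q / 2 * (1 / r)) + N ^ q * (q / 2 * r) * (S x / N - η) ^ 2 := by ring
  have hd1 : Dep (bd m F) (fun x => (1 / N ^ 2) * (S x * S x)) := dep_mul (dep_const _ _) (dep_mul hSd hSd)
  have hd2 : Dep (bd m F) (fun x => (-2 * η / N) * S x) := dep_mul (dep_const _ _) hSd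
  have hd3 : Dep (bd m F) (fun x => (-2 * η / N) * S x + η ^ 2) := dep_add hd2 (dep_const _ _)
  have hd4 : Dep (bd m F) (fun x => N ^ q * (q / 2 * r) * ((1 / N ^ 2) * (S x * S x) + ((-2 * η / N) * S x + η ^ 2))) :=
    dep_mul (dep_const _ _) (dep_add hd1 hd3)
  have h1 := E_mono (N := bd m F) (dep_comp hSd (fun y => y ^ q))
    (dep_add (dep_const _ (N ^ q * (η ^ q + q / 2 * (1 / r)))) hd4) hpt
  rw [E_add (dep_const (bd m F) _) hd4, E_const, E_smul, E_add hd1 hd3, E_smul, E_add hd2 (dep_const _ _), E_smul,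
    E_const, m1] at h1
  have e0 : ∫ t, (∑ i ∈ F, evt m i t) ^ q ∂mu = E (fun x => S x ^ q) := by rw [hS]; rfl
  have hNq : (0 : ℝ) ≤ N ^ q := Real.rpow_nonneg hN0.le _
  rw [e0, ← hN, ← hr]
  have e3 : (1 / 2 : ℝ) ^ (m * q) = η ^ q := by
    rw [hη, ← Real.rpow_natCast, ← Real.rpow_mul (by norm_num)]
  rw [e3]
  refine h1.trans ?_
  have h2 : (1 / N ^ 2) * E (fun x => S x * S x) + ((-2 * η / N) * (N * η) + η ^ 2) ≤ 1 / N := by
    have h3 : (1 / N ^ 2) * E (fun x => S x * S x) ≤ (1 / N ^ 2) * (N * η + N ^ 2 * η ^ 2) :=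
      mul_le_mul_of_nonneg_left m2 (by positivity)
    have h4 : (1 / N ^ 2) * (N * η + N ^ 2 * η ^ 2) = η / N + η ^ 2 := by
      field_simp
    have h5 : (-2 * η / N) * (N * η) = -2 * η ^ 2 := by
      field_simp
    rw [h5]
    have h6 : η / N ≤ 1 / N := div_le_div_of_nonneg_right hη1 hN0.le
    linarith
  have h3 : N ^ q * (q / 2 * r) * ((1 / N ^ 2) * E (fun x => S x * S x) + ((-2 * η / N) * (N * η) + η ^ 2)) ≤
      N ^ q * (q / 2 * r) * (1 / N) :=
    mul_le_mul_of_nonneg_left h2 (by positivity)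
  have h4 : N ^ q * (q / 2 * r) * (1 / N) = N ^ q * (q / 2 * (1 / r)) := by
    rw [← hrr]
    field_simp
  calc N ^ q * (η ^ q + q / 2 * (1 / r)) +
        N ^ q * (q / 2 * r) * ((1 / N ^ 2) * E (fun x => S x * S x) + ((-2 * η / N) * (N * η) + η ^ 2))
      ≤ N ^ q * (η ^ q + q / 2 * (1 / r)) + N ^ q * (q / 2 * (1 / r)) := by rw [← h4]; linarith
    _ = N ^ q * (η ^ q + q / r) := by ring

end Pool.Agent.K1H76.WU
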